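import Mathlib

namespace Pool.Agent.Results.MP_4e92f2_gt.NotMinimal

open Set Topology Filter

/-- The three points of the extended real line that get identified. -/
def A : Set EReal := {⊥, 0, ⊤}

/-- The equivalence relation collapsing `A` to a point. -/
def collapse : Setoid EReal where
  r x y := x = y ∨ (x ∈ A ∧ y ∈ A)
  iseqv :=
    { refl := fun x => Or.inl rfl
      symm := fun {x y} h => by
        rcases h with h | h
        · exact Or.inl h.symm
        · exact Or.inr ⟨h.2, h.1⟩
      trans := fun {x y z} h h' => by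
        rcases h with rfl | h
        · exact h'
        · rcases h' with rfl | h'
          · exact Or.inr h
          · exact Or.inr ⟨h.1, h'.2⟩ }

/-- The set `X₀`, the extended real line with `-∞, 0, +∞` identified. -/
def X0 : Type := Quotient collapse

/-- The projection from the extended real line onto `X₀`. -/
def q (x : EReal) : X0 := Quotient.mk collapse x

/-- The point `∗`, the common image of `-∞, 0, +∞`. -/
noncomputable def star : X0 := q 0

lemma q_eq {x y : EReal} : q x = q y ↔ x = y ∨ (x ∈ A ∧ y ∈ A) := Quotient.eq (r := collapse)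

lemma zero_mem : (0 : EReal) ∈ A := by simp [A]

lemma q_eq_star {x : EReal} : q x = star ↔ x ∈ A := by
  rw [star, q_eq]
  constructor
  · rintro (h | h)
    · rw [h]; exact zero_mem
    · exact h.1
  · intro h
    exact Or.inr ⟨h, zero_mem⟩

lemma q_surj (x : X0) : ∃ y, q y = x := Quotient.exists_rep x

/-- General construction of a topology on `X₀` from a family `P` of subsets of the line which is
closed under binary intersections of open members and under passing to larger sets. -/
@[reducible] def mkTop (P : Set EReal → Prop) (h0 : P univ)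
    (h1 : ∀ U V, IsOpen U → IsOpen V → P U → P V → P (U ∩ V)) (h2 : ∀ U V, U ⊆ V → P U → P V) :
    TopologicalSpace X0 where
  IsOpen U := IsOpen (q ⁻¹' U) ∧ (star ∈ U → P (q ⁻¹' U))
  isOpen_univ := ⟨isOpen_univ, fun _ => h0⟩
  isOpen_inter := fun U V hU hV =>
    ⟨hU.1.inter hV.1, fun h => h1 _ _ hU.1 hV.1 (hU.2 h.1) (hV.2 h.2)⟩
  isOpen_sUnion := fun S hS => by
    refine ⟨?_, ?_⟩
    · rw [preimage_sUnion]
      exact isOpen_biUnion fun s hs => (hS s hs).1
    · rintro ⟨s, hs, hst⟩
      exact h2 _ _ (preimage_mono (subset_sUnion_of_mem hs)) ((hS s hs).2 hst)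

/-- The topology `τ`: `U` is open iff `q⁻¹(U)` is open and, whenever `∗ ∈ U`, also dense. -/
@[reducible] def tau : TopologicalSpace X0 :=
  mkTop Dense dense_univ (fun _ _ hU _ hd hd' => hd.inter_of_isOpen_left hd' hU)
    (fun _ _ h hd => hd.mono h)

lemma isOpen_tau (U : Set X0) :
    IsOpen[tau] U ↔ IsOpen (q ⁻¹' U) ∧ (star ∈ U → Dense (q ⁻¹' U)) := Iff.rfl

/-- The coarser topology `σ`: the complement of `q⁻¹(U)` is countable when `∗ ∈ U`. -/
@[reducible] def sig : TopologicalSpace X0 :=
  mkTop (fun U => (Uᶜ).Countable) (by simp)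
    (fun U V _ _ h h' => by rw [compl_inter]; exact h.union h')
    (fun U V h hd => hd.mono (compl_subset_compl.2 h))

lemma isOpen_sig (U : Set X0) :
    IsOpen[sig] U ↔ IsOpen (q ⁻¹' U) ∧ (star ∈ U → ((q ⁻¹' U)ᶜ).Countable) := Iff.rfl

lemma A_closed : IsClosed A := (Set.toFinite ({⊥, 0, ⊤} : Set EReal)).isClosed

lemma dense_real : Dense (range (fun x : ℝ => (x : EReal))) := by
  apply dense_of_exists_between
  intro a b hab
  obtain ⟨c, h1, h2⟩ := EReal.lt_iff_exists_real_btwn.1 hab
  exact ⟨c, ⟨c, rfl⟩, h1, h2⟩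

/-- a nonempty open set of the extended line is met by the complement of every countable set -/
lemma dense_of_countable {C : Set EReal} (hC : C.Countable) : Dense Cᶜ := by
  rw [dense_iff_inter_open]
  intro V hV hne
  have h1 : ∃ r : ℝ, (r : EReal) ∈ V := by
    obtain ⟨y, hy1, ⟨r, rfl⟩⟩ := dense_real.inter_open_nonempty V hV hne
    exact ⟨r, hy1⟩
  obtain ⟨r, hr⟩ := h1
  have hV' : IsOpen ((fun x : ℝ => (x : EReal)) ⁻¹' V) := hV.preimage continuous_coe_real_ereal
  have hC' : ((fun x : ℝ => (x : EReal)) ⁻¹' C).Countable :=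
    hC.preimage_of_injOn (fun x _ y _ h => by exact_mod_cast h)
  have hd := hC'.dense_compl ℝ
  obtain ⟨x, hx1, hx2⟩ := hd.inter_open_nonempty _ hV' ⟨r, hr⟩
  exact ⟨x, hx1, hx2⟩

lemma sig_le : ∀ U, IsOpen[sig] U → IsOpen[tau] U := by
  intro U hU
  rw [isOpen_sig] at hU
  rw [isOpen_tau]
  refine ⟨hU.1, fun h => ?_⟩
  have := dense_of_countable (hU.2 h)
  rwa [compl_compl] at this

/-- an uncountable compact set of reals without rational points -/
lemma exists_K : ∃ K : Set ℝ, IsCompact K ∧ K ⊆ Icc 1 2 ∧ ¬ K.Countable ∧ ∀ r : ℚ, (r : ℝ) ∉ K := by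
  have hQ : (range (fun r : ℚ => (r : ℝ))).Countable := countable_range _
  have hQ0 : MeasureTheory.volume (range (fun r : ℚ => (r : ℝ))) < 1 := by
    rw [hQ.measure_zero]; exact zero_lt_one
  obtain ⟨U, hQU, hU, hU1⟩ := (range (fun r : ℚ => (r : ℝ))).exists_isOpen_lt_of_lt 1 hQ0
  refine ⟨Icc 1 2 \ U, isCompact_Icc.diff hU, sdiff_subset, ?_, ?_⟩
  · intro hc
    have h0 := hc.measure_zero MeasureTheory.volume
    have h1 : MeasureTheory.volume (Icc (1 : ℝ) 2) ≤
        MeasureTheory.volume (Icc (1 : ℝ) 2 \ U) + MeasureTheory.volume U := by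
      refine le_trans (MeasureTheory.measure_mono ?_) (MeasureTheory.measure_union_le _ _)
      intro x hx
      by_cases h : x ∈ U
      · exact Or.inr h
      · exact Or.inl ⟨hx, h⟩
    rw [h0, zero_add, Real.volume_Icc] at h1
    norm_num at h1
    exact absurd (lt_of_le_of_lt h1 hU1) (lt_irrefl _)
  · rintro r ⟨_, hr⟩
    exact hr (hQU ⟨r, rfl⟩)

lemma sig_ne : sig ≠ tau := by
  intro h
  obtain ⟨K, hK, hK12, hKc, hKr⟩ := exists_K
  set C : Set EReal := (fun x : ℝ => (x : EReal)) '' K with hC
  have hCA : ∀ x ∈ C, x ∉ A := by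
    rintro _ ⟨x, hx, rfl⟩ h
    have h12 := hK12 hx
    simp only [A, mem_insert_iff, mem_singleton_iff] at h
    rcases h with h | h | h
    · exact EReal.coe_ne_bot _ h
    · have : x = 0 := by exact_mod_cast h
      rw [this] at h12
      exact absurd h12.1 (by norm_num)
    · exact EReal.coe_ne_top _ h
  have hpre : q ⁻¹' ((q '' C)ᶜ) = Cᶜ := by
    ext x
    simp only [mem_preimage, mem_compl_iff, mem_image, not_exists, not_and]
    constructor
    · intro h hx
      exact h x hx rfl
    · intro h y hy hyx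
      rcases q_eq.1 hyx with h' | h'
      · exact h (h' ▸ hy)
      · exact hCA y hy h'.1
  have hCcl : IsClosed C := (hK.image continuous_coe_real_ereal).isClosed
  have ht : IsOpen[tau] ((q '' C)ᶜ) := by
    rw [isOpen_tau, hpre]
    refine ⟨hCcl.isOpen_compl, fun _ => ?_⟩
    rw [dense_iff_inter_open]
    intro V hV hne
    obtain ⟨y, hy1, ⟨r, rfl⟩⟩ := dense_real.inter_open_nonempty V hV hne
    have hV' : IsOpen ((fun x : ℝ => (x : EReal)) ⁻¹' V) := hV.preimage continuous_coe_real_ereal
    obtain ⟨x, hx1, ⟨s, rfl⟩⟩ := (Rat.denseRange_cast (𝕜 := ℝ)).inter_open_nonempty _ hV' ⟨r, hy1⟩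
    refine ⟨((s : ℝ) : EReal), hx1, ?_⟩
    rintro ⟨z, hz, hzs⟩
    have : z = (s : ℝ) := EReal.coe_injective hzs
    exact hKr s (this ▸ hz)
  rw [← h, isOpen_sig, hpre, compl_compl] at ht
  have hst : star ∈ (q '' C)ᶜ := by
    rintro ⟨x, hx, hx'⟩
    exact hCA x hx (q_eq_star.1 hx')
  have := ht.2 hst
  apply hKc
  exact countable_of_injective_of_countable_image (fun x _ y _ h => by exact_mod_cast h) this

lemma sig_t1 : @T1Space X0 sig := by
  let _ := sig
  refine ⟨fun x => ?_⟩
  rw [← isOpen_compl_iff]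
  change IsOpen[sig] {x}ᶜ
  rw [isOpen_sig]
  obtain ⟨ξ, rfl⟩ := q_surj x
  by_cases hξ : ξ ∈ A
  · have hs : q ξ = star := q_eq_star.2 hξ
    rw [hs]
    refine ⟨?_, fun h => absurd rfl h⟩
    have : q ⁻¹' {star}ᶜ = Aᶜ := by
      ext y
      simp [q_eq_star]
    rw [this]
    exact A_closed.isOpen_compl
  · have : q ⁻¹' {q ξ}ᶜ = {ξ}ᶜ := by
      ext y
      simp only [mem_preimage, mem_compl_iff, mem_singleton_iff, q_eq, not_or, not_and]
      constructor
      · exact fun h => h.1
      · exact fun h => ⟨h, fun _ => hξ⟩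
    rw [this]
    refine ⟨isOpen_compl_singleton, fun _ => by simp⟩

lemma key (x : ℕ → X0) (a b : X0) (ha : Tendsto x atTop (@nhds X0 sig a))
    (hb : Tendsto x atTop (@nhds X0 sig b)) (hbs : b ≠ star) : a = b := by
  let _ := sig
  by_contra hab
  have rep : ∀ n, q (Quotient.out (x n)) = x n := fun n => Quotient.out_eq (x n)
  set y : ℕ → EReal := fun n => Quotient.out (x n) with hy
  -- a sequence converging to a point other than `∗` converges upstairs
  have up : ∀ β : EReal, β ∉ A → Tendsto x atTop (@nhds X0 sig (q β)) →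
      Tendsto y atTop (𝓝 β) ∧ ∀ᶠ n in atTop, y n ∉ A := by
    intro β hβ hx
    have gen : ∀ V : Set EReal, IsOpen V → β ∈ V → ∀ᶠ n in atTop, y n ∈ V ∧ y n ∉ A := by
      intro V hV hβV
      have hpre : q ⁻¹' (q '' (V ∩ Aᶜ)) = V ∩ Aᶜ := by
        ext z
        constructor
        · rintro ⟨w, hw, hwz⟩
          rcases q_eq.1 hwz with h | h
          · exact h ▸ hw
          · exact absurd h.1 hw.2
        · intro hz
          exact ⟨z, hz, rfl⟩
      have hop : IsOpen[sig] (q '' (V ∩ Aᶜ)) := by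
        rw [isOpen_sig, hpre]
        refine ⟨hV.inter A_closed.isOpen_compl, ?_⟩
        rintro ⟨w, hw, hws⟩
        exact absurd (q_eq_star.1 hws) hw.2
      have := hx.eventually (IsOpen.mem_nhds hop ⟨β, ⟨hβV, hβ⟩, rfl⟩)
      filter_upwards [this] with n hn
      have h2 : y n ∈ q ⁻¹' (q '' (V ∩ Aᶜ)) := by
        have h3 : q (y n) = x n := rep n
        rw [mem_preimage, h3]
        exact hn
      rw [hpre] at h2
      exact h2
    constructor
    · rw [tendsto_nhds]
      intro V hV hβV
      exact (gen V hV hβV).mono fun n hn => hn.1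
    · exact (gen univ isOpen_univ (mem_univ _)).mono fun n hn => hn.2
  obtain ⟨β, rfl⟩ := q_surj b
  have hβ : β ∉ A := fun h => hbs (q_eq_star.2 h)
  obtain ⟨hyβ, hyA⟩ := up β hβ hb
  by_cases has : a = star
  · obtain ⟨N, hN⟩ := eventually_atTop.1 hyA
    have hyN : Tendsto (fun n => y (n + N)) atTop (𝓝 β) := (tendsto_add_atTop_iff_nat N).2 hyβ
    set C : Set EReal := insert β (range fun n => y (n + N)) with hC
    have hCc : IsClosed C := (hyN.isCompact_insert_range).isClosed
    have hCA : ∀ z ∈ C, z ∉ A := by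
      rintro z (rfl | ⟨n, rfl⟩)
      · exact hβ
      · exact hN _ (by omega)
    have hpre : q ⁻¹' ((q '' C)ᶜ) = Cᶜ := by
      ext z
      simp only [mem_preimage, mem_compl_iff, mem_image, not_exists, not_and]
      constructor
      · intro h hx
        exact h z hx rfl
      · intro h w hw hwz
        rcases q_eq.1 hwz with h' | h'
        · exact h (h' ▸ hw)
        · exact hCA w hw h'.1
    have hop : IsOpen[sig] ((q '' C)ᶜ) := by
      rw [isOpen_sig, hpre, compl_compl]
      exact ⟨hCc.isOpen_compl, fun _ => (countable_range _).insert _⟩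
    have hst : a ∈ (q '' C)ᶜ := by
      rw [has]
      rintro ⟨z, hz, hz'⟩
      exact hCA z hz (q_eq_star.1 hz')
    obtain ⟨M, hM⟩ := eventually_atTop.1 (ha.eventually (IsOpen.mem_nhds hop hst))
    have h1 := hM (M + N) (by omega)
    apply h1
    exact ⟨y (M + N), Or.inr ⟨M, rfl⟩, rep _⟩
  · obtain ⟨α, rfl⟩ := q_surj a
    have hα : α ∉ A := fun h => has (q_eq_star.2 h)
    have := tendsto_nhds_unique (up α hα ha).1 hyβ
    exact hab (by rw [this])

/-- `τ` is not a minimal US topology: there is a `T₁` topology `τ'` on `X₀`, strictly coarser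
than `τ`, in which every convergent sequence has exactly one limit. -/
theorem result : ∃ τ' : TopologicalSpace X0, @T1Space X0 τ' ∧
    (∀ U : Set X0, IsOpen[τ'] U → IsOpen[tau] U) ∧ τ' ≠ tau ∧
    ∀ (x : ℕ → X0) (a b : X0), Tendsto x atTop (@nhds X0 τ' a) →
      Tendsto x atTop (@nhds X0 τ' b) → a = b := by
  refine ⟨sig, sig_t1, sig_le, sig_ne, fun x a b ha hb => ?_⟩
  by_cases h : b = star
  · by_cases h' : a = star
    · rw [h, h']
    · exact (key x b a hb ha h').symm
  · exact key x a b ha hb h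

end Pool.Agent.Results.MP_4e92f2_gt.NotMinimal
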